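import Pool.Agent.H24.RD.Targets

/-!
# MP_c65535_nt, module VC: the subgroup `V` is small and has exponent `p ^ (n - n1)`
-/

set_option autoImplicit false

namespace Pool.Agent.H47.RD

open Pool.Agent.H24.RD

theorem pf_VC : T_VC := by
  intro F M _ _ _ _ _ _ p hp r γ hγ n m n1 N' K' h1m hmn hn2 hpN hKN hζ hθ hgen
  obtain ⟨ζ, hζ⟩ := hζ
  choose θ hθ using hθ
  have hN0 : 0 < N' := Nat.pos_of_ne_zero (fun h => hpN (h ▸ dvd_zero p))
  have hK0 : 0 < K' := Nat.pos_of_dvd_of_pos hKN hN0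
  have hpK : ¬ p ∣ K' := fun h => hpN (h.trans hKN)
  have h1n : n1 ≤ n := h1m.trans hmn
  have hpos : ∀ k, 0 < p ^ k := fun k => pow_pos hp.pos k
  obtain ⟨ζ0, hζ0p⟩ : ∃ ζ0 : M, IsPrimitiveRoot ζ0 (p ^ n) :=
    ⟨ζ ^ N', hζ.pow (Nat.mul_pos (hpos n) hN0) (mul_comm _ _)⟩
  obtain ⟨θ0, hθ0p⟩ : ∃ θ0 : Fin r → M, ∀ i, θ0 i ^ (p ^ m) = algebraMap F M (γ i) := by
    refine ⟨fun i => θ i ^ K', fun i => ?_⟩
    rw [← hθ i, ← pow_mul, mul_comm]
  have hγM : ∀ i, algebraMap F M (γ i) ≠ 0 := fun i => by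
    rw [Ne, FaithfulSMul.algebraMap_eq_zero_iff]
    exact hγ i
  have hζ00 : ζ0 ≠ 0 := hζ0p.ne_zero (hpos n).ne'
  have hθ00 : ∀ i, θ0 i ≠ 0 := by
    intro i h
    have := hθ0p i
    rw [h, zero_pow (hpos m).ne'] at this
    exact hγM i this.symm
  -- elements of `V` are determined by their values at `ζ0` and `θ0`
  have hinj : ∀ t ∈ VV F M γ p n1 K', ∀ t' ∈ VV F M γ p n1 K', t ζ0 = t' ζ0 →
      (∀ i, t (θ0 i) = t' (θ0 i)) → t = t' := by
    intro t ht t' ht' hz hth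
    have hroot : ∀ z : M, z ^ p ^ n = 1 → t z = t' z := by
      intro z hz1
      have : NeZero (p ^ n) := ⟨(hpos n).ne'⟩
      obtain ⟨i, -, rfl⟩ := hζ0p.eq_pow_of_pow_eq_one hz1
      rw [map_pow, map_pow, hz]
    have hgens : ∀ z : M, (z ^ (p ^ n * N') = 1 ∨
        ∃ i, z ^ (p ^ m * K') = algebraMap F M (γ i)) → t z = t' z := by
      rintro z (hz1 | ⟨i, hz1⟩)
      · have hz0 : z ≠ 0 := by
          rintro rfl
          rw [zero_pow (Nat.mul_pos (hpos n) hN0).ne'] at hz1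
          exact zero_ne_one hz1
        have hcop : IsCoprime ((p ^ n : ℕ) : ℤ) (N' : ℤ) :=
          Nat.isCoprime_iff_coprime.2 (Nat.Coprime.pow_left n ((Nat.Prime.coprime_iff_not_dvd hp).2 hpN))
        obtain ⟨a, b, hab⟩ := hcop
        have e : z = (z ^ (p ^ n)) ^ a * (z ^ N') ^ b := by
          rw [← zpow_natCast, ← zpow_natCast, ← zpow_mul, ← zpow_mul, ← zpow_add₀ hz0]
          rw [mul_comm _ a, mul_comm _ b, hab, zpow_one]
        have f1 : t (z ^ (p ^ n)) = z ^ (p ^ n) := ht _ (Or.inl ⟨N', hpN, by rw [← pow_mul]; exact hz1⟩)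
        have f2 : t' (z ^ (p ^ n)) = z ^ (p ^ n) := ht' _ (Or.inl ⟨N', hpN, by rw [← pow_mul]; exact hz1⟩)
        have f3 : t (z ^ N') = t' (z ^ N') := hroot _ (by rw [← pow_mul, mul_comm]; exact hz1)
        rw [e, map_mul, map_mul, map_zpow₀, map_zpow₀, map_zpow₀, map_zpow₀, f1, f2, f3]
      · have hz0 : z ≠ 0 := by
          rintro rfl
          rw [zero_pow (Nat.mul_pos (hpos m) hK0).ne'] at hz1
          exact hγM i hz1.symm
        have hcop : IsCoprime ((p ^ m : ℕ) : ℤ) (K' : ℤ) :=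
          Nat.isCoprime_iff_coprime.2 (Nat.Coprime.pow_left m ((Nat.Prime.coprime_iff_not_dvd hp).2 hpK))
        obtain ⟨a, b, hab⟩ := hcop
        have e : z = (z ^ (p ^ m)) ^ a * (z ^ K') ^ b := by
          rw [← zpow_natCast, ← zpow_natCast, ← zpow_mul, ← zpow_mul, ← zpow_add₀ hz0]
          rw [mul_comm _ a, mul_comm _ b, hab, zpow_one]
        have f1 : t (z ^ (p ^ m)) = z ^ (p ^ m) :=
          ht _ (Or.inr (Or.inr (Or.inr ⟨i, by rw [← pow_mul]; exact hz1⟩)))
        have f2 : t' (z ^ (p ^ m)) = z ^ (p ^ m) :=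
          ht' _ (Or.inr (Or.inr (Or.inr ⟨i, by rw [← pow_mul]; exact hz1⟩)))
        have f3 : t (z ^ K') = t' (z ^ K') := by
          have g1 : z ^ K' = (z ^ K' / θ0 i) * θ0 i := by field_simp [hθ00 i]
          have g2 : (z ^ K' / θ0 i) ^ p ^ n = 1 := by
            obtain ⟨c, rfl⟩ := Nat.exists_eq_add_of_le hmn
            rw [pow_add, pow_mul, div_pow, hθ0p i, ← pow_mul, mul_comm K', hz1,
              div_self (hγM i), one_pow]
          rw [g1, map_mul, map_mul, hroot _ g2, hth i]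
        rw [e, map_mul, map_mul, map_zpow₀, map_zpow₀, map_zpow₀, map_zpow₀, f1, f2, f3]
    ext x
    have hx : x ∈ IntermediateField.adjoin F {z : M | z ^ (p ^ n * N') = 1 ∨
        ∃ i, z ^ (p ^ m * K') = algebraMap F M (γ i)} := by
      rw [hgen]; exact IntermediateField.mem_top
    refine IntermediateField.adjoin_induction F (p := fun x _ => t x = t' x) ?_ ?_ ?_ ?_ ?_ hx
    · exact fun z hz => hgens z hz
    · intro c
      rw [AlgEquiv.commutes, AlgEquiv.commutes]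
    · intro u v _ _ hu hv
      rw [map_add, map_add, hu, hv]
    · intro u _ hu
      rw [map_inv₀, map_inv₀, hu]
    · intro u v _ _ hu hv
      rw [map_mul, map_mul, hu, hv]
  -- the cocycles
  have hρ : ∀ t ∈ VV F M γ p n1 K', (t ζ0 / ζ0) ^ p ^ (n - n1) = 1 := by
    intro t ht
    have h1 : t (ζ0 ^ p ^ (n - n1)) = ζ0 ^ p ^ (n - n1) := by
      refine ht _ (Or.inr (Or.inl ?_))
      rw [← pow_mul, ← pow_add, Nat.sub_add_cancel h1n]
      exact hζ0p.pow_eq_one
    rw [div_pow, ← map_pow, h1, div_self (pow_ne_zero _ hζ00)]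
  have hρi : ∀ t ∈ VV F M γ p n1 K', ∀ i, (t (θ0 i) / θ0 i) ^ p ^ (n - n1) = 1 := by
    intro t ht i
    have h1 : t (θ0 i ^ p ^ (m - n1)) = θ0 i ^ p ^ (m - n1) := by
      refine ht _ (Or.inr (Or.inr (Or.inl ⟨i, ?_⟩)))
      rw [← pow_mul, ← pow_add, Nat.sub_add_cancel h1m]
      exact hθ0p i
    have h2 : (t (θ0 i) / θ0 i) ^ p ^ (m - n1) = 1 := by
      rw [div_pow, ← map_pow, h1, div_self (pow_ne_zero _ (hθ00 i))]
    have h3 : n - n1 = (m - n1) + (n - m) := by omega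
    rw [h3, pow_add, pow_mul, h2, one_pow]
  have : NeZero (p ^ (n - n1)) := ⟨(hpos _).ne'⟩
  constructor
  · -- cardinality
    let f : VV F M γ p n1 K' → Option (Fin r) → rootsOfUnity (p ^ (n - n1)) M := fun t o =>
      match o with
      | none => rootsOfUnity.mkOfPowEq (t.1 ζ0 / ζ0) (hρ t.1 t.2)
      | some i => rootsOfUnity.mkOfPowEq (t.1 (θ0 i) / θ0 i) (hρi t.1 t.2 i)
    have hf : Function.Injective f := by
      intro t t' h
      refine Subtype.ext (hinj t.1 t.2 t'.1 t'.2 ?_ ?_)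
      · have h1 := congrFun h none
        have h2 : t.1 ζ0 / ζ0 = t'.1 ζ0 / ζ0 := congrArg (fun u : rootsOfUnity (p ^ (n - n1)) M => ((u : Mˣ) : M)) h1
        rwa [div_left_inj' hζ00] at h2
      · intro i
        have h1 := congrFun h (some i)
        have h2 : t.1 (θ0 i) / θ0 i = t'.1 (θ0 i) / θ0 i := congrArg (fun u : rootsOfUnity (p ^ (n - n1)) M => ((u : Mˣ) : M)) h1
        rwa [div_left_inj' (hθ00 i)] at h2
    have h1 := Nat.card_le_card_of_injective f hf
    rw [Nat.card_fun, Nat.card_eq_fintype_card (α := Option (Fin r)), Fintype.card_option, Fintype.card_fin] at h1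
    refine h1.trans ?_
    rw [mul_comm, pow_mul]
    refine Nat.pow_le_pow_left ?_ _
    exact card_rootsOfUnity M _
  · -- exponent
    intro t ht
    have hfix : ∀ z : M, z ^ p ^ (n - n1) = 1 → t z = z := by
      intro z hz
      refine ht _ (Or.inr (Or.inl ?_))
      have h3 : n1 = (n - n1) + (n1 - (n - n1)) := by omega
      rw [h3, pow_add, pow_mul, hz, one_pow]
    have hit : ∀ u : M, u ≠ 0 → (t u / u) ^ p ^ (n - n1) = 1 → ∀ j : ℕ,
        (t ^ j) u = (t u / u) ^ j * u := by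
      intro u hu hu1 j
      induction j with
      | zero => simp
      | succ j ih =>
        rw [pow_succ', AlgEquiv.mul_apply, ih, map_mul, map_pow, hfix _ hu1, pow_succ, mul_assoc,
          div_mul_cancel₀ _ hu]
    refine hinj _ (Subgroup.pow_mem _ ht _) 1 (Subgroup.one_mem _) ?_ ?_
    · rw [hit _ hζ00 (hρ t ht), hρ t ht, one_mul]
      rfl
    · intro i
      rw [hit _ (hθ00 i) (hρi t ht i), hρi t ht i, one_mul]
      rfl

end Pool.Agent.H47.RD
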